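import Mathlib

set_option autoImplicit false
set_option maxRecDepth 100000

/-!
A `2`-zero free sequence of length `74` over `ℤ/73`.
-/

namespace Pool.Agent.Results.MP_891d15_co.CounterexampleSeventyThree

/-- The second elementary symmetric value of the subsequence of `s` indexed by `I`. -/
def e2 {n k : ℕ} (s : Fin k → ZMod n) (I : Finset (Fin k)) : ZMod n :=
  ∑ i ∈ I, ∑ j ∈ I.filter (fun j => i < j), s i * s j

/-- `s` is `2`-zero free: no subsequence with at least two terms has second elementary symmetric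
value `0`. -/
def TwoZeroFree {n k : ℕ} (s : Fin k → ZMod n) : Prop :=
  ∀ I : Finset (Fin k), 2 ≤ I.card → e2 s I ≠ 0

/-- `D_{e_2}^{(2)}(ℤ/n)`: the least `ℓ` such that no sequence of length `ℓ` is `2`-zero free. -/
noncomputable def D (n : ℕ) : ℕ := sInf {ℓ : ℕ | ∀ s : Fin ℓ → ZMod n, ¬ TwoZeroFree s}

/-- The statement Q1. -/
def Q1 : Prop := ∀ p : ℕ, p.Prime → p % 4 = 1 → D p = p + 1

theorem two_mul_e2 {n k : ℕ} (s : Fin k → ZMod n) (I : Finset (Fin k)) :
    (∑ i ∈ I, s i) ^ 2 = 2 * e2 s I + ∑ i ∈ I, s i ^ 2 := by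
  have h1 : (∑ i ∈ I, s i) ^ 2 = ∑ i ∈ I, ∑ j ∈ I, s i * s j := by
    rw [sq, Finset.sum_mul_sum]
  have h2 : ∀ i ∈ I, ∑ j ∈ I, s i * s j =
      ∑ j ∈ I.filter (fun j => i < j), s i * s j + s i ^ 2 +
        ∑ j ∈ I.filter (fun j => j < i), s i * s j := by
    intro i hi
    have h3 : s i ^ 2 = ∑ j ∈ I, if j = i then s i * s j else 0 := by
      rw [Finset.sum_ite_eq' I i, if_pos hi, sq]
    rw [h3, Finset.sum_filter, Finset.sum_filter, ← Finset.sum_add_distrib,
      ← Finset.sum_add_distrib]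
    refine Finset.sum_congr rfl fun j _ => ?_
    rcases lt_trichotomy i j with h | h | h
    · rw [if_pos h, if_neg h.ne', if_neg (not_lt.2 h.le)]; ring
    · rw [if_neg (not_lt.2 h.ge), if_pos h.symm, if_neg (not_lt.2 h.le)]; ring
    · rw [if_neg (not_lt.2 h.le), if_neg h.ne, if_pos h]; ring
  have h4 : ∑ i ∈ I, ∑ j ∈ I.filter (fun j => j < i), s i * s j = e2 s I := by
    rw [e2]
    simp only [Finset.sum_filter]
    rw [Finset.sum_comm]
    refine Finset.sum_congr rfl fun i _ => Finset.sum_congr rfl fun j _ => ?_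
    split_ifs
    · rw [mul_comm]
    · rfl
  rw [h1, Finset.sum_congr rfl h2, Finset.sum_add_distrib, Finset.sum_add_distrib, h4]
  show e2 s I + _ + _ = _
  ring

/-- `70` copies of `1` and four copies of `38`. -/
def ex : Fin 74 → ZMod 73 := fun i => if i.val < 70 then 1 else 38

theorem numeric : ∀ a : Fin 71, ∀ b : Fin 5, 2 ≤ a.val + b.val →
    ((a.val + 38 * b.val) ^ 2) % 73 ≠ (a.val + 38 ^ 2 * b.val) % 73 := by
  decide

theorem ex_free : TwoZeroFree ex := by
  intro I hI h0
  have h1 := two_mul_e2 ex I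
  rw [h0, mul_zero, zero_add] at h1
  set a := (I.filter (fun i => i.val < 70)).card with ha
  set b := (I.filter (fun i => ¬ i.val < 70)).card with hb
  have hab : a + b = I.card := Finset.card_filter_add_card_filter_not _
  have ha70 : a ≤ 70 := by
    have h2 : (I.filter (fun i => i.val < 70)).card ≤
        ((Finset.univ : Finset (Fin 74)).filter (fun i => i.val < 70)).card :=
      Finset.card_le_card (Finset.filter_subset_filter _ (Finset.subset_univ _))
    have h3 : ((Finset.univ : Finset (Fin 74)).filter (fun i => i.val < 70)).card = 70 := by decide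
    omega
  have hb4 : b ≤ 4 := by
    have h2 : (I.filter (fun i => ¬ i.val < 70)).card ≤
        ((Finset.univ : Finset (Fin 74)).filter (fun i => ¬ i.val < 70)).card :=
      Finset.card_le_card (Finset.filter_subset_filter _ (Finset.subset_univ _))
    have h3 : ((Finset.univ : Finset (Fin 74)).filter (fun i => ¬ i.val < 70)).card = 4 := by
      decide
    omega
  have hs1 : ∑ i ∈ I, ex i = ((a + 38 * b : ℕ) : ZMod 73) := by
    simp only [ex]
    rw [Finset.sum_ite, Finset.sum_const, Finset.sum_const, ← ha, ← hb]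
    push_cast
    simp only [nsmul_eq_mul, mul_one]
    ring
  have hs2 : ∑ i ∈ I, ex i ^ 2 = ((a + 38 ^ 2 * b : ℕ) : ZMod 73) := by
    have : ∀ i, ex i ^ 2 = if i.val < 70 then 1 else 38 ^ 2 := by
      intro i
      rw [ex]
      split_ifs
      · rw [one_pow]
      · rfl
    simp only [this]
    rw [Finset.sum_ite, Finset.sum_const, Finset.sum_const, ← ha, ← hb]
    push_cast
    simp only [nsmul_eq_mul, mul_one]
    ring
  rw [hs1, hs2, ← Nat.cast_pow, ZMod.natCast_eq_natCast_iff'] at h1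
  exact numeric ⟨a, by omega⟩ ⟨b, by omega⟩ (by simp only; omega) h1

theorem exists_long {p : ℕ} [NeZero p] (hp : Odd p) (hp2 : 2 ≤ p) :
    ∀ s : Fin (p * p) → ZMod p, ¬ TwoZeroFree s := by
  intro s hs
  classical
  obtain ⟨y, -, hy⟩ := Finset.exists_le_card_fiber_of_mul_le_card_of_maps_to
    (s := (Finset.univ : Finset (Fin (p * p)))) (t := (Finset.univ : Finset (ZMod p)))
    (f := s) (n := p) (fun _ _ => Finset.mem_univ _) ⟨0, Finset.mem_univ _⟩ (by
      rw [Finset.card_univ, Finset.card_univ, ZMod.card, Fintype.card_fin])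
  obtain ⟨I, hI1, hI2⟩ := Finset.exists_subset_card_eq hy
  have hval : ∀ i ∈ I, s i = y := fun i hi => (Finset.mem_filter.1 (hI1 hi)).2
  apply hs I (by omega)
  have h1 := two_mul_e2 s I
  have h2 : ∑ i ∈ I, s i = 0 := by
    rw [Finset.sum_congr rfl hval, Finset.sum_const, hI2, nsmul_eq_mul, ZMod.natCast_self,
      zero_mul]
  have h3 : ∑ i ∈ I, s i ^ 2 = 0 := by
    rw [Finset.sum_congr rfl (fun i hi => by rw [hval i hi]), Finset.sum_const, hI2, nsmul_eq_mul,
      ZMod.natCast_self, zero_mul]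
  rw [h2, h3, add_zero, zero_pow (by norm_num)] at h1
  have h4 : IsUnit (2 : ZMod p) := by
    have := (ZMod.isUnit_iff_coprime 2 p).2 (Nat.coprime_two_left.2 hp)
    exact_mod_cast this
  exact (h4.mul_right_eq_zero).1 h1.symm

theorem D_lower : 75 ≤ D 73 := by
  have hne : {ℓ : ℕ | ∀ s : Fin ℓ → ZMod 73, ¬ TwoZeroFree s}.Nonempty :=
    ⟨73 * 73, exists_long (by decide) (by norm_num)⟩
  have hmem : ∀ s : Fin (D 73) → ZMod 73, ¬ TwoZeroFree s := Nat.sInf_mem hne
  by_contra hlt
  push Not at hlt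
  have hle : D 73 ≤ 74 := by omega
  apply hmem (fun i => ex (Fin.castLE hle i))
  intro I hI h0
  apply ex_free (I.map (Fin.castLEEmb hle)) (by rwa [Finset.card_map])
  rw [e2, Finset.sum_map]
  rw [e2] at h0
  rw [← h0]
  refine Finset.sum_congr rfl fun i _ => ?_
  rw [Finset.filter_map, Finset.sum_map]
  rfl

/-- Q1 is false: `73` is a prime congruent to `1` modulo `4`, and the sequence over `ℤ/73` made of
`70` copies of `1` and four copies of `38` is `2`-zero free, so `D_{e_2}^{(2)}(ℤ/73) ≥ 75`. -/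
theorem result : ¬ Q1 ∧ TwoZeroFree ex ∧ 75 ≤ D 73 := by
  refine ⟨?_, ex_free, D_lower⟩
  intro h
  have h1 := h 73 (by norm_num) (by norm_num)
  have h2 := D_lower
  omega

end Pool.Agent.Results.MP_891d15_co.CounterexampleSeventyThree
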